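import Pool.Agent.H798.BV.Stm7

set_option autoImplicit false

namespace Pool.Agent.H661.BV

open Pool.Agent.H798.BV

theorem one_sub_le_L5 {t M : ℝ} (h0 : 0 ≤ t) (h1 : t ≤ 1) (hM : 2 ≤ M) :
    1 - t ≤ Real.exp (-t - t ^ 2 / M) := by
  rcases eq_or_lt_of_le h1 with h | h
  · subst h
    have := Real.exp_pos (-1 - 1 ^ 2 / M)
    linarith
  · have hs := Real.hasSum_pow_div_log_of_abs_lt_one (x := t) (by rw [abs_of_nonneg h0]; exact h)
    have h2 := sum_le_hasSum (Finset.range 2) (fun n _ => by positivity) hs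
    have h3 : t + t ^ 2 / 2 ≤ -Real.log (1 - t) := by
      rw [Finset.sum_range_succ, Finset.sum_range_succ, Finset.sum_range_zero] at h2
      norm_num at h2
      linarith
    have h4 : t ^ 2 / M ≤ t ^ 2 / 2 := by gcongr
    have h5 : Real.log (1 - t) ≤ -t - t ^ 2 / M := by linarith
    exact (Real.log_le_iff_le_exp (by linarith)).1 h5

theorem one_add_le_L5 {x M : ℝ} (h0 : 0 ≤ x) (hM : 2 * (1 + x) ≤ M) :
    1 + x ≤ Real.exp (x - x ^ 2 / M) := by
  have hp : 0 < 1 + x := by linarith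
  have h1 : 0 ≤ Real.log (1 + x) := Real.log_nonneg (by linarith)
  have h2 := Real.self_le_sinh_iff.2 h1
  rw [Real.sinh_log hp] at h2
  have h3 : (1 + x - (1 + x)⁻¹) / 2 = x - x ^ 2 / (2 * (1 + x)) := by
    field_simp
    ring
  have h4 : x ^ 2 / M ≤ x ^ 2 / (2 * (1 + x)) := by
    gcongr
  have h5 : Real.log (1 + x) ≤ x - x ^ 2 / M := by linarith
  exact (Real.log_le_iff_le_exp hp).1 h5

theorem key_L5 {t T M : ℝ} (h1 : t ≤ 1) (hT : |t| ≤ T) (hM : 2 * (1 + T) ≤ M) :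
    1 - t ≤ Real.exp (-t - t ^ 2 / M) := by
  have hT0 : 0 ≤ T := le_trans (abs_nonneg _) hT
  rcases le_total 0 t with h | h
  · exact one_sub_le_L5 h h1 (by linarith)
  · rw [abs_of_nonpos h] at hT
    have := one_add_le_L5 (x := -t) (M := M) (by linarith) (by linarith)
    have e1 : (1:ℝ) + -t = 1 - t := by ring
    have e2 : -t - (-t) ^ 2 / M = -t - t ^ 2 / M := by ring
    rw [e1, e2] at this
    exact this

/-- the factor bound -/
theorem fac_L5 {a u : ℝ} (ha : 0 < a) (hu : 0 ≤ u) (hua : u ≤ a) (z : ℂ) :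
    ‖1 - (u : ℂ) * z‖ ≤ 1 - u * ((1 - ‖1 - (a : ℂ) * z‖) / a) := by
  have e : (a : ℂ) * (1 - (u : ℂ) * z) = ((a - u : ℝ) : ℂ) + (u : ℂ) * (1 - (a : ℂ) * z) := by
    push_cast
    ring
  have h1 : a * ‖1 - (u : ℂ) * z‖ ≤ (a - u) + u * ‖1 - (a : ℂ) * z‖ := by
    have h2 : ‖(a : ℂ) * (1 - (u : ℂ) * z)‖ = a * ‖1 - (u : ℂ) * z‖ := by
      rw [norm_mul, Complex.norm_of_nonneg ha.le]
    rw [← h2, e]
    refine (norm_add_le _ _).trans ?_
    rw [Complex.norm_of_nonneg (by linarith : (0:ℝ) ≤ a - u), norm_mul, Complex.norm_of_nonneg hu]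
  have h3 : a * (1 - u * ((1 - ‖1 - (a : ℂ) * z‖) / a)) = (a - u) + u * ‖1 - (a : ℂ) * z‖ := by
    field_simp
    ring
  have h4 : a * ‖1 - (u : ℂ) * z‖ ≤ a * (1 - u * ((1 - ‖1 - (a : ℂ) * z‖) / a)) := by
    rw [h3]; exact h1
  exact le_of_mul_le_mul_left h4 ha

theorem d_abs_L5 {a : ℝ} (ha : 0 < a) (z : ℂ) : |(1 - ‖1 - (a : ℂ) * z‖) / a| ≤ ‖z‖ := by
  rw [abs_div, abs_of_pos ha, div_le_iff₀ ha]
  have h := abs_norm_sub_norm_le (1 : ℂ) (1 - (a : ℂ) * z)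
  rw [norm_one] at h
  have e : (1 : ℂ) - (1 - (a : ℂ) * z) = (a : ℂ) * z := by ring
  rw [e, norm_mul, Complex.norm_of_nonneg ha.le] at h
  linarith [mul_comm a ‖z‖]

theorem d_low_L5 {a : ℝ} (ha : 0 < a) (z : ℂ) :
    (3 / 4) * ‖z‖ ^ 2 - 3 * (|z.im| + (‖1 - (a : ℂ) * z‖ - (1 - (a : ℂ) * z).re) / a) ^ 2 ≤
      ((1 - ‖1 - (a : ℂ) * z‖) / a) ^ 2 := by
  set n := ‖1 - (a : ℂ) * z‖ with hn
  have hre : (1 - (a : ℂ) * z).re = 1 - a * z.re := by simp
  have hh : 0 ≤ (n - (1 - (a : ℂ) * z).re) / a :=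
    div_nonneg (by have := Complex.re_le_norm (1 - (a : ℂ) * z); linarith) ha.le
  have hz : z.re = (1 - n) / a + (n - (1 - (a : ℂ) * z).re) / a := by
    rw [hre]
    field_simp
    ring
  set e := (n - (1 - (a : ℂ) * z).re) / a with he
  set d := (1 - n) / a with hd
  have h1 : ‖z‖ ≤ |d| + (|z.im| + e) := by
    have h2 := Complex.norm_le_abs_re_add_abs_im z
    have h3 : |z.re| ≤ |d| + e := by
      rw [hz]
      refine (abs_add_le _ _).trans ?_
      rw [abs_of_nonneg hh]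
    linarith
  have h0 : 0 ≤ ‖z‖ := norm_nonneg _
  have h4 : ‖z‖ ^ 2 ≤ (|d| + (|z.im| + e)) ^ 2 := by gcongr
  have h5 : d ^ 2 = |d| ^ 2 := (sq_abs d).symm
  rw [h5]
  nlinarith [sq_nonneg (|d| - 3 * (|z.im| + e))]

theorem t_L5 : S_L5 := by
  intro A a₁ C ha₁ haA hA hC
  refine ⟨1 / (3600 * C ^ 2), by positivity, ⌈32 * (A + 1) ^ 2⌉₊, ?_⟩
  intro m l a δ hm ha1 ha2 hδ hδ0 hsum hbig hsmall S hS u hu hua
  have ha : 0 < a := lt_of_lt_of_le ha₁ ha1
  have hC0 : 0 < C := by linarith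
  have hm' : 32 * (A + 1) ^ 2 ≤ (m : ℝ) := by
    refine (Nat.le_ceil _).trans ?_
    exact_mod_cast hm
  have hm0 : (0 : ℝ) ≤ m := Nat.cast_nonneg m
  -- the parameter delta
  have hsq : Real.sqrt δ ≤ 1 / (60 * C) := by
    rw [Real.sqrt_le_left (by positivity)]
    refine hδ0.trans (le_of_eq ?_)
    field_simp
    norm_num
  have hCs : C * Real.sqrt δ ≤ 1 / 60 := by
    calc C * Real.sqrt δ ≤ C * (1 / (60 * C)) := by gcongr
      _ = 1 / 60 := by field_simp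
  have hδs : δ ≤ 1 / 3600 := by
    refine hδ0.trans ?_
    rw [div_le_div_iff₀ (by positivity) (by norm_num)]
    nlinarith
  -- notation
  set d : Fin m → ℝ := fun k => (1 - ‖1 - (a : ℂ) * l k‖) / a with hd
  set Q : Finset (Fin m) := Finset.univ.filter (fun k => ¬ 2 * (A + 1) < ‖l k‖) with hQ
  set M : ℝ := 4 * (A + 1) ^ 2 with hM
  have hMpos : 0 < M := by positivity
  have hdl : ∀ k, |d k| ≤ ‖l k‖ := fun k => d_abs_L5 ha (l k)
  have hQl : ∀ k ∈ Q, ‖l k‖ ≤ 2 * (A + 1) := by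
    intro k hk
    rw [hQ, Finset.mem_filter] at hk
    exact not_lt.1 hk.2
  -- lower bound of the sum of squares
  have hD : (m : ℝ) / 2 ≤ ∑ k ∈ Q, d k ^ 2 := by
    have h1 : ∑ k ∈ Q, ((3 / 4) * ‖l k‖ ^ 2 -
        3 * (|(l k).im| + (‖1 - (a : ℂ) * l k‖ - (1 - (a : ℂ) * l k).re) / a) ^ 2) ≤
        ∑ k ∈ Q, d k ^ 2 := Finset.sum_le_sum fun k _ => d_low_L5 ha (l k)
    rw [Finset.sum_sub_distrib, ← Finset.mul_sum, ← Finset.mul_sum] at h1
    have h2 : C * Real.sqrt δ * m ≤ 1 / 60 * m := by gcongr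
    have h3 : δ * m ≤ 1 / 3600 * m := by gcongr
    nlinarith
  have hDS : (m : ℝ) / 4 ≤ ∑ k ∈ Q \ S, d k ^ 2 := by
    have h1 : ∑ k ∈ Q, d k ^ 2 = ∑ k ∈ Q \ S, d k ^ 2 + ∑ k ∈ Q ∩ S, d k ^ 2 := by
      rw [add_comm, Finset.sum_inter_add_sum_sdiff]
    have h2 : ∑ k ∈ Q ∩ S, d k ^ 2 ≤ ∑ k ∈ Q ∩ S, (2 * (A + 1)) ^ 2 := by
      refine Finset.sum_le_sum fun k hk => ?_
      have hkQ : k ∈ Q := (Finset.mem_inter.1 hk).1
      have h3 : |d k| ≤ 2 * (A + 1) := (hdl k).trans (hQl k hkQ)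
      rw [← sq_abs (d k)]
      gcongr
    have h4 : ∑ k ∈ Q ∩ S, (2 * (A + 1)) ^ 2 ≤ 2 * (2 * (A + 1)) ^ 2 := by
      rw [Finset.sum_const, nsmul_eq_mul]
      have h5 : ((Q ∩ S).card : ℝ) ≤ 2 := by
        have : (Q ∩ S).card ≤ 2 := (Finset.card_le_card Finset.inter_subset_right).trans hS
        exact_mod_cast this
      gcongr
    nlinarith
  -- the product
  have ht1 : ∀ k, u * d k ≤ 1 := by
    intro k
    have h1 : u * d k = (u / a) * (1 - ‖1 - (a : ℂ) * l k‖) := by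
      simp only [hd]; ring
    have h2 : u / a ≤ 1 := (div_le_one ha).2 hua
    have h3 : 0 ≤ u / a := div_nonneg hu ha.le
    rw [h1]
    nlinarith [norm_nonneg (1 - (a : ℂ) * l k)]
  have hfac : ∀ k, ‖1 - (u : ℂ) * l k‖ ≤
      Real.exp (-(u * d k) - (if k ∈ Q then (u * d k) ^ 2 / M else 0)) := by
    intro k
    refine (fac_L5 ha hu hua (l k)).trans ?_
    split_ifs with hk
    · refine key_L5 (T := A * (2 * (A + 1))) (ht1 k) ?_ ?_
      · rw [abs_mul, abs_of_nonneg hu]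
        have h3 : |d k| ≤ 2 * (A + 1) := (hdl k).trans (hQl k hk)
        have h4 : u ≤ A := hua.trans ha2
        gcongr
      · rw [hM]; nlinarith
    · have := Real.add_one_le_exp (-(u * d k))
      rw [sub_zero]
      linarith
  have hprod : ‖fS l S u‖ ≤ Real.exp (∑ k ∈ Sᶜ, (-(u * d k) -
      (if k ∈ Q then (u * d k) ^ 2 / M else 0))) := by
    rw [fS, norm_prod, Real.exp_sum]
    exact Finset.prod_le_prod (fun _ _ => norm_nonneg _) fun k _ => hfac k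
  refine hprod.trans ?_
  have hexp : Real.exp 2 ≤ 8 := by
    have h1 : Real.exp 2 = Real.exp 1 ^ 2 := by
      rw [← Real.exp_nat_mul]; norm_num
    rw [h1]
    have h2 := Real.exp_one_lt_d9
    have h3 := Real.exp_pos 1
    nlinarith
  have hfin : ∑ k ∈ Sᶜ, (-(u * d k) - (if k ∈ Q then (u * d k) ^ 2 / M else 0)) ≤
      2 + -(1 / (16 * (A + 1) ^ 2) * (m * u ^ 2)) := by
    rw [Finset.sum_sub_distrib, Finset.sum_neg_distrib]
    have h1 : -2 ≤ ∑ k ∈ Sᶜ, u * d k := by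
      have h2 : ∑ k ∈ S, u * d k + ∑ k ∈ Sᶜ, u * d k = ∑ k, u * d k :=
        Finset.sum_add_sum_compl S _
      have h3 : 0 ≤ ∑ k, u * d k := by
        have h4 : ∑ k, u * d k = (u / a) * (m - ∑ k, ‖1 - (a : ℂ) * l k‖) := by
          have h5 : ∀ k, u * d k = (u / a) * (1 - ‖1 - (a : ℂ) * l k‖) := by
            intro k; simp only [hd]; ring
          rw [Finset.sum_congr rfl fun k _ => h5 k, ← Finset.mul_sum, Finset.sum_sub_distrib]
          simp
        rw [h4]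
        exact mul_nonneg (div_nonneg hu ha.le) (by linarith)
      have h6 : ∑ k ∈ S, u * d k ≤ 2 := by
        have h7 : ∑ k ∈ S, u * d k ≤ ∑ k ∈ S, (1:ℝ) := Finset.sum_le_sum fun k _ => ht1 k
        rw [Finset.sum_const, nsmul_eq_mul, mul_one] at h7
        have h8 : (S.card : ℝ) ≤ 2 := by exact_mod_cast hS
        linarith
      linarith
    have h9 : 1 / (16 * (A + 1) ^ 2) * (m * u ^ 2) ≤
        ∑ k ∈ Sᶜ, (if k ∈ Q then (u * d k) ^ 2 / M else 0) := by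
      rw [← Finset.sum_filter]
      have h10 : Finset.filter (fun k => k ∈ Q) Sᶜ = Q \ S := by
        ext k
        simp only [Finset.mem_filter, Finset.mem_compl, Finset.mem_sdiff]
        exact and_comm
      rw [h10]
      have h11 : ∑ k ∈ Q \ S, (u * d k) ^ 2 / M = (u ^ 2 / M) * ∑ k ∈ Q \ S, d k ^ 2 := by
        rw [Finset.mul_sum]
        refine Finset.sum_congr rfl fun k _ => ?_
        ring
      rw [h11]
      calc 1 / (16 * (A + 1) ^ 2) * (m * u ^ 2) = (u ^ 2 / M) * ((m : ℝ) / 4) := by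
            rw [hM]
            have hA1 : (A + 1) ≠ 0 := by positivity
            field_simp
            ring
        _ ≤ (u ^ 2 / M) * ∑ k ∈ Q \ S, d k ^ 2 := by gcongr
    linarith
  calc Real.exp (∑ k ∈ Sᶜ, (-(u * d k) - (if k ∈ Q then (u * d k) ^ 2 / M else 0))) ≤
        Real.exp (2 + -(1 / (16 * (A + 1) ^ 2) * (m * u ^ 2))) := Real.exp_le_exp.2 hfin
    _ = Real.exp 2 * Real.exp (-(1 / (16 * (A + 1) ^ 2) * (m * u ^ 2))) := Real.exp_add _ _
    _ ≤ 8 * Real.exp (-(1 / (16 * (A + 1) ^ 2) * (m * u ^ 2))) := by gcongr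

end Pool.Agent.H661.BV
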