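import Mathlib
import Pool.Agent.H798.BV.Stm
import Pool.Agent.H798.BV.Stm4
import Pool.Agent.H798.BV.Stm5
import Pool.Agent.H798.BV.Stm6

set_option autoImplicit false
set_option maxHeartbeats 4000000

/-!
# MP_172a45_an: (S5) from (SB), (TR), (GAI)

Adapted from the proof of (LG) in `Pool/Agent/H351/BV/Lg.lean` and of (GAY) in
`Pool/Agent/H747/BV/Gay.lean`.
-/

open MeasureTheory Set

namespace Pool.Agent.H661.BV

open Pool.Agent.H798.BV

theorem exp_sub_one (ζ : ℂ) (M : ℝ) (hM : 0 ≤ M) (h : ζ.re ≤ M) :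
    ‖Complex.exp ζ - 1‖ ≤ Real.exp M * ‖ζ‖ := by
  have := Convex.norm_image_sub_le_of_norm_deriv_le (𝕜 := ℂ) (f := Complex.exp) (C := Real.exp M)
    (s := {z : ℂ | z.re ≤ M}) (x := 0) (y := ζ)
    (fun z _ => Complex.differentiableAt_exp)
    (fun z hz => by
      rw [Complex.deriv_exp, Complex.norm_exp]
      exact Real.exp_le_exp.mpr hz)
    (convex_halfSpace_re_le M) (by simpa using hM) h
  simpa using this

theorem model_re (s : ℂ) (Y x : ℝ) :
    (-((x : ℂ) * s) - (x : ℂ) ^ 2 * Y / 2).re = -(x * s.re) - x ^ 2 * Y / 2 := by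
  have h2 : ((x : ℂ) ^ 2 * Y / 2) = ((x ^ 2 * Y / 2 : ℝ) : ℂ) := by push_cast; ring
  rw [h2, Complex.sub_re, Complex.neg_re, Complex.re_ofReal_mul, Complex.ofReal_re]

theorem model_le (s : ℂ) (Y x : ℝ) (hs : 0 ≤ s.re) (hx : 0 ≤ x) :
    ‖Complex.exp (-((x : ℂ) * s) - (x : ℂ) ^ 2 * Y / 2)‖ ≤ Real.exp (-(x ^ 2 * Y / 2)) := by
  rw [Complex.norm_exp, model_re]
  refine Real.exp_le_exp.mpr ?_
  have := mul_nonneg hx hs
  linarith

/-- pointwise comparison -/
theorem pw (P E G : ℂ) (x q β V : ℝ) (hx : 0 ≤ x) (hq : 0 < q) (hβ0 : 0 ≤ β) (hβ1 : β ≤ 1)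
    (hV : 1 / 320 ≤ V) (hP : ‖P - 1‖ ≤ Real.exp (x * β) - 1) (hE1 : ‖E‖ ≤ 8 * x ^ 3 / q)
    (hE2 : ‖E‖ ≤ x ^ 2 * V / 8) (hG : ‖G‖ ≤ Real.exp (-(x ^ 2 * V / 2))) :
    ‖P * (G * Complex.exp E) - G‖ ≤
      (β + 1 / q) * (49 * Real.exp (5120 / 3) * Real.exp (-(3 / 5120) * x ^ 2)) := by
  have e1 : P * (G * Complex.exp E) - G =
      G * ((P - 1) * Complex.exp E + (Complex.exp E - 1)) := by
    ring
  have hV0 : 0 ≤ V := by linarith
  have hEe : ‖Complex.exp E‖ ≤ Real.exp (x ^ 2 * V / 8) := by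
    rw [Complex.norm_exp]
    exact Real.exp_le_exp.2 ((Complex.re_le_norm E).trans hE2)
  have hE3 : ‖Complex.exp E - 1‖ ≤ Real.exp (x ^ 2 * V / 8) * (8 * x ^ 3 / q) := by
    refine (exp_sub_one E (x ^ 2 * V / 8) (by positivity)
      ((Complex.re_le_norm E).trans hE2)).trans ?_
    exact mul_le_mul_of_nonneg_left hE1 (Real.exp_pos _).le
  have hP2 : ‖P - 1‖ ≤ x * β * Real.exp x := by
    have a1 : Real.exp (x * β) - 1 ≤ x * β * Real.exp (x * β) := by
      have b1 := Real.add_one_le_exp (-(x * β))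
      have b2 : Real.exp (-(x * β)) * Real.exp (x * β) = 1 := by rw [← Real.exp_add]; simp
      have b3 := mul_le_mul_of_nonneg_right b1 (Real.exp_pos (x * β)).le
      rw [b2] at b3
      linarith
    have a2 : Real.exp (x * β) ≤ Real.exp x := by
      refine Real.exp_le_exp.2 ?_
      calc x * β ≤ x * 1 := mul_le_mul_of_nonneg_left hβ1 hx
        _ = x := mul_one x
    have a3 := mul_le_mul_of_nonneg_left a2 (mul_nonneg hx hβ0)
    linarith
  have hx2 : Real.exp x * Real.exp x = Real.exp (2 * x) := by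
    rw [← Real.exp_add]; congr 1; ring
  have hle : Real.exp x ≤ Real.exp (2 * x) := Real.exp_le_exp.2 (by linarith)
  have hpos := Real.exp_pos (2 * x)
  have c1 : x * Real.exp x ≤ 49 * Real.exp (2 * x) := by
    have : x ≤ Real.exp x := by linarith [Real.add_one_le_exp x]
    have := mul_le_mul_of_nonneg_right this (Real.exp_pos x).le
    rw [hx2] at this
    linarith
  have c2 : 8 * x ^ 3 ≤ 49 * Real.exp (2 * x) := by
    have := Real.pow_div_factorial_le_exp x hx 3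
    have h6 : ((Nat.factorial 3 : ℕ) : ℝ) = 6 := by norm_num [Nat.factorial]
    rw [h6] at this
    linarith
  have hq1 : 0 ≤ 1 / q := by positivity
  rw [e1, norm_mul]
  calc ‖G‖ * ‖(P - 1) * Complex.exp E + (Complex.exp E - 1)‖
      ≤ Real.exp (-(x ^ 2 * V / 2)) * (x * β * Real.exp x * Real.exp (x ^ 2 * V / 8) +
          Real.exp (x ^ 2 * V / 8) * (8 * x ^ 3 / q)) := by
        refine mul_le_mul hG ((norm_add_le _ _).trans (add_le_add ?_ hE3)) (norm_nonneg _)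
          (Real.exp_pos _).le
        rw [norm_mul]
        exact mul_le_mul hP2 hEe (norm_nonneg _) (by positivity)
    _ = (Real.exp (-(x ^ 2 * V / 2)) * Real.exp (x ^ 2 * V / 8)) *
          (β * (x * Real.exp x) + 1 / q * (8 * x ^ 3)) := by ring
    _ ≤ Real.exp (-(3 / 2560 * x ^ 2)) * ((β + 1 / q) * (49 * Real.exp (2 * x))) := by
        refine mul_le_mul ?_ ?_ (by positivity) (Real.exp_pos _).le
        · rw [← Real.exp_add]
          refine Real.exp_le_exp.2 ?_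
          nlinarith [mul_le_mul_of_nonneg_left hV (sq_nonneg x)]
        · rw [add_mul]
          exact add_le_add (mul_le_mul_of_nonneg_left c1 hβ0) (mul_le_mul_of_nonneg_left c2 hq1)
    _ = (β + 1 / q) * (49 * (Real.exp (-(3 / 2560 * x ^ 2)) * Real.exp (2 * x))) := by ring
    _ ≤ (β + 1 / q) * (49 * (Real.exp (5120 / 3) * Real.exp (-(3 / 5120) * x ^ 2))) := by
        refine mul_le_mul_of_nonneg_left (mul_le_mul_of_nonneg_left ?_ (by norm_num))
          (by positivity)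
        rw [← Real.exp_add, ← Real.exp_add]
        refine Real.exp_le_exp.2 ?_
        nlinarith [sq_nonneg (x - 5120 / 3)]
    _ = _ := by ring

theorem tail (R : ℝ) (hR : 0 ≤ R) :
    ∫ x in Ioi R, Real.exp (-(1 / 640) * x ^ 2) ≤
      (∫ x in Ioi (0:ℝ), Real.exp (-(1 / 1280) * x ^ 2)) * Real.exp (-(R ^ 2 / 1280)) := by
  have i1 : Integrable fun x : ℝ => Real.exp (-(1 / 640) * x ^ 2) :=
    integrable_exp_neg_mul_sq (by norm_num)
  have i2 : Integrable fun x : ℝ => Real.exp (-(1 / 1280) * x ^ 2) :=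
    integrable_exp_neg_mul_sq (by norm_num)
  have h1 : ∫ x in Ioi R, Real.exp (-(1 / 640) * x ^ 2) ≤
      ∫ x in Ioi R, Real.exp (-(R ^ 2 / 1280)) * Real.exp (-(1 / 1280) * x ^ 2) := by
    refine setIntegral_mono_on i1.integrableOn (i2.const_mul _).integrableOn measurableSet_Ioi
      fun x hx => ?_
    rw [← Real.exp_add]
    refine Real.exp_le_exp.mpr ?_
    have hx' : R < x := hx
    nlinarith
  have h2 : ∫ x in Ioi R, Real.exp (-(1 / 1280) * x ^ 2) ≤
      ∫ x in Ioi (0:ℝ), Real.exp (-(1 / 1280) * x ^ 2) :=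
    setIntegral_mono_set i2.integrableOn (Filter.Eventually.of_forall fun x => (Real.exp_pos _).le)
      (Ioi_subset_Ioi hR).eventuallyLE
  rw [integral_const_mul] at h1
  refine h1.trans ?_
  rw [mul_comm]
  exact mul_le_mul_of_nonneg_right h2 (Real.exp_pos _).le

theorem gauss_pos (b : ℝ) (hb : 0 < b) : 0 < ∫ x in Ioi (0:ℝ), Real.exp (-b * x ^ 2) := by
  rw [integral_gaussian_Ioi]
  have : 0 < √(Real.pi / b) := Real.sqrt_pos.2 (by positivity)
  linarith

/-- the model integral, `Y ≥ 1/320`, `Y ≤ 4` -/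
theorem model_lower (K c : ℝ) (hK : 0 < K)
    (hG : ∀ (n : ℕ) (l : Fin n → ℂ) (B : Finset (Fin n)) (s : ℂ) (κ : ℝ),
      0 ≤ κ → κ < 1 → 0 ≤ s.re → ‖s‖ ≤ 18 * K → ∑ k ∈ B, ‖l k‖ ≤ κ * s.re →
      (1 - κ) * c ≤ ‖∫ x in Set.Ioi (0:ℝ), (∏ k ∈ B, (1 - (x : ℂ) * l k)) *
        Complex.exp (-((x : ℂ) * s) - (x : ℂ) ^ 2 / 2)‖)
    (s : ℂ) (V : ℝ) (hs : 0 ≤ s.re) (hsK : ‖s‖ ≤ K) (hV : 1 / 320 ≤ V) (hV4 : V ≤ 4) :
    c / 2 ≤ ‖∫ x in Ioi (0:ℝ), Complex.exp (-((x : ℂ) * s) - (x : ℂ) ^ 2 * V / 2)‖ := by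
  set R : ℝ := Real.sqrt V with hR
  have hV0 : 0 < V := by linarith
  have hR2 : R ^ 2 = V := Real.sq_sqrt hV0.le
  have hR0 : 0 < R := Real.sqrt_pos.2 hV0
  have hR3 : 1 / 18 ≤ R := by nlinarith
  have hRL : R ≤ 2 := by nlinarith
  have h1 := hG 0 (fun _ => 0) ∅ ((R : ℂ)⁻¹ * s) 0 le_rfl zero_lt_one (by
      rw [← Complex.ofReal_inv, Complex.re_ofReal_mul]
      positivity) (by
      rw [norm_mul, norm_inv, Complex.norm_real, Real.norm_of_nonneg hR0.le,
        inv_mul_le_iff₀ hR0]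
      nlinarith) (by simp)
  have h2 := MeasureTheory.integral_comp_mul_left_Ioi (fun x : ℝ =>
    Complex.exp (-((x : ℂ) * s) - (x : ℂ) ^ 2 * V / 2)) 0
    (inv_pos.2 hR0)
  have hRc : (R : ℂ) ≠ 0 := by exact_mod_cast hR0.ne'
  have h3 : ∀ x : ℝ,
      Complex.exp (-(((R⁻¹ * x : ℝ) : ℂ) * s) - ((R⁻¹ * x : ℝ) : ℂ) ^ 2 * V / 2) =
        Complex.exp (-((x : ℂ) * ((R : ℂ)⁻¹ * s)) - (x : ℂ) ^ 2 / 2) := by
    intro x
    have hYc : (V : ℂ) = (R : ℂ) ^ 2 := by
      rw [← hR2]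
      push_cast
      rfl
    rw [hYc]
    congr 1
    push_cast
    field_simp
  simp only [h3, mul_zero, inv_inv] at h2
  simp only [Finset.prod_empty, one_mul, sub_zero] at h1
  rw [h2, norm_smul, Real.norm_of_nonneg hR0.le] at h1
  have hn := norm_nonneg (∫ x in Ioi (0:ℝ), Complex.exp (-((x : ℂ) * s) - (x : ℂ) ^ 2 * V / 2))
  nlinarith

/-- the direction -/
theorem dir (y s : ℂ) : ∃ ω : ℂ, ‖ω‖ = 1 ∧ ω ^ 2 * y = (‖y‖ : ℂ) ∧ 0 ≤ (ω * s).re := by
  set w : ℂ := Complex.exp ((-(y.arg / 2) : ℝ) * Complex.I) with hw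
  have hw1 : ‖w‖ = 1 := Complex.norm_exp_ofReal_mul_I _
  have hw2 : w ^ 2 * y = ‖y‖ := by
    conv_lhs => rw [← Complex.norm_mul_exp_arg_mul_I y]
    rw [hw, ← Complex.exp_nat_mul, mul_left_comm, ← Complex.exp_add]
    have : ((2 : ℕ) : ℂ) * (((-(y.arg / 2) : ℝ) : ℂ) * Complex.I) +
        (y.arg : ℂ) * Complex.I = 0 := by
      push_cast
      ring
    rw [this, Complex.exp_zero, mul_one]
  rcases le_total 0 (w * s).re with h | h
  · exact ⟨w, hw1, hw2, h⟩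
  · exact ⟨-w, by rw [norm_neg]; exact hw1, by rw [neg_sq]; exact hw2, by
      rw [neg_mul, Complex.neg_re]; linarith⟩

/-- (S5) -/
theorem t_S5 (h1 : S_SB) (h2 : S_TR) (h3 : S_GAI) : S_S5 := by
  intro K hK
  have hK0 : 0 < K := by linarith
  obtain ⟨c, hc, hG⟩ := h3 (18 * K) (by positivity)
  set I1 : ℝ := ∫ x in Ioi (0:ℝ), Real.exp (-(3 / 5120) * x ^ 2) with hI1
  have hI1p : 0 < I1 := gauss_pos _ (by norm_num)
  set C1 : ℝ := 49 * Real.exp (5120 / 3) * I1 with hC1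
  have hC1p : 0 < C1 := by positivity
  set C2 : ℝ := ∫ x in Ioi (0:ℝ), Real.exp (-(1 / 1280) * x ^ 2) with hC2
  have hC2p : 0 < C2 := gauss_pos _ (by norm_num)
  obtain ⟨ρ, hρdef⟩ : ∃ ρ : ℝ, ρ = 1 / 20480 := ⟨_, rfl⟩
  have hρ : 0 < ρ := by rw [hρdef]; norm_num
  set Q : ℝ := 1280 * (72 * K + 1) / ρ ^ 2 + 16 * C1 / c + 16 * C2 / c + 48 / c with hQ
  have hQa : 0 ≤ 1280 * (72 * K + 1) / ρ ^ 2 := by positivity
  have hQb : 0 ≤ 16 * C1 / c := by positivity
  have hQc : 0 ≤ 16 * C2 / c := by positivity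
  have hQd : 0 < 48 / c := by positivity
  have hQ0 : 0 < Q := by rw [hQ]; linarith
  refine ⟨min (3 / (4 * K)) (3 * c / (64 * K * C1)), by positivity, ⌈Q ^ 2⌉₊, ?_⟩
  intro m l a hmN hm hS ha hs hY
  have ha1 : a ≤ 3 / (4 * K) := ha.trans (min_le_left _ _)
  have ha2 : a ≤ 3 * c / (64 * K * C1) := ha.trans (min_le_right _ _)
  have hm0 : (0:ℝ) < m := by exact_mod_cast hm
  set q : ℝ := Real.sqrt m with hq
  have hq0 : 0 < q := Real.sqrt_pos.mpr hm0
  have hq2 : q * q = m := Real.mul_self_sqrt hm0.le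
  have hQq : Q ≤ q := by
    refine Real.le_sqrt_of_sq_le ?_
    exact (Nat.le_ceil _).trans (by exact_mod_cast hmN)
  have hqa : 1280 * (72 * K + 1) ≤ q * ρ ^ 2 := by
    have : 1280 * (72 * K + 1) / ρ ^ 2 ≤ q := by linarith
    rwa [div_le_iff₀ (by positivity)] at this
  have hqb : 16 * C1 ≤ q * c := by
    have : 16 * C1 / c ≤ q := by linarith
    rwa [div_le_iff₀ hc] at this
  have hqc : 16 * C2 ≤ q * c := by
    have : 16 * C2 / c ≤ q := by linarith
    rwa [div_le_iff₀ hc] at this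
  have hqd : 48 ≤ q * c := by
    have : 48 / c ≤ q := by linarith
    rwa [div_le_iff₀ hc] at this
  have hmne : ((m : ℕ) : ℂ) ≠ 0 := by exact_mod_cast hm0.ne'
  have hmc : ((m : ℕ) : ℂ) = (q : ℂ) * q := by exact_mod_cast hq2.symm
  have ha0 : 0 < a := hS.pos
  have hah : a ≤ 1 / 2 := hS.half
  set B : Finset (Fin m) := Finset.univ.filter (fun k => 4 < ‖l k‖) with hBdef
  set A : Finset (Fin m) := Finset.univ.filter (fun k => ¬ 4 < ‖l k‖) with hAdef
  have hsR : sR 4 l = (∑ k ∈ A, l k) / m := rfl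
  have hyR : yR 4 l = (∑ k ∈ A, l k ^ 2) / m := rfl
  have hbB : bB 4 l = (∑ k ∈ B, ‖l k‖) / m := rfl
  obtain ⟨hSB1, hSB2, -⟩ := h1 m l a hm hS
  obtain ⟨ω, hω1, hωY, hωs⟩ := dir (yR 4 l) (sR 4 l)
  set s : ℂ := sR 4 l with hsdef
  set Y : ℂ := yR 4 l with hYdef
  set V : ℝ := ‖Y‖ with hV
  have hsA : ∑ k ∈ A, l k = m * s := by
    rw [hsR, mul_div_cancel₀ _ hmne]
  have hYA : ∑ k ∈ A, l k ^ 2 = m * Y := by
    rw [hyR, mul_div_cancel₀ _ hmne]
  have hAL : ∀ k ∈ A, ‖l k‖ ≤ 4 := by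
    intro k hk
    rw [hAdef, Finset.mem_filter] at hk
    exact not_lt.mp hk.2
  have hAs : ∑ k ∈ A, ‖l k‖ ≤ m :=
    le_trans (Finset.sum_le_sum_of_subset_of_nonneg (Finset.subset_univ _)
      fun _ _ _ => norm_nonneg _) hS.mean
  have hV4 : V ≤ 4 := by
    rw [hV, hyR, norm_div, Complex.norm_natCast, div_le_iff₀ hm0]
    calc ‖∑ k ∈ A, l k ^ 2‖ ≤ ∑ k ∈ A, ‖l k ^ 2‖ := norm_sum_le _ _
      _ ≤ ∑ k ∈ A, 4 * ‖l k‖ := Finset.sum_le_sum fun k hk => by
          rw [norm_pow, sq]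
          exact mul_le_mul_of_nonneg_right (hAL k hk) (norm_nonneg _)
      _ = 4 * ∑ k ∈ A, ‖l k‖ := by rw [Finset.mul_sum]
      _ ≤ 4 * m := mul_le_mul_of_nonneg_left hAs (by norm_num)
  -- the rotated quantities
  set lt : Fin m → ℂ := fun k => ω * l k with hlt
  have hltn : ∀ k, ‖lt k‖ = ‖l k‖ := by
    intro k
    rw [hlt]
    simp only
    rw [norm_mul, hω1, one_mul]
  have hltA : ∑ k ∈ A, lt k = m * (ω * s) := by
    rw [hlt, ← Finset.mul_sum, hsA]; ring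
  have hltA2 : ∑ k ∈ A, lt k ^ 2 = m * V := by
    rw [hlt]
    simp only [mul_pow]
    rw [← Finset.mul_sum, hYA, mul_left_comm, hωY]
  have hltL : ∀ k ∈ A, ‖lt k‖ ≤ 4 := fun k hk => by rw [hltn]; exact hAL k hk
  have hltS : ∑ k ∈ A, ‖lt k‖ ≤ m := by
    rw [Finset.sum_congr rfl fun k _ => hltn k]; exact hAs
  set σ : ℂ := (q : ℂ) * (ω * s) with hσ
  have hσ0 : 0 ≤ σ.re := by
    rw [hσ, Complex.re_ofReal_mul]
    exact mul_nonneg hq0.le hωs
  have hσK : ‖σ‖ ≤ K := by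
    rw [hσ, norm_mul, Complex.norm_real, Real.norm_of_nonneg hq0.le, norm_mul, hω1, one_mul]
    exact hs
  -- the big part
  set β : ℝ := (∑ k ∈ B, ‖l k‖) / q with hβ
  have hβ0 : 0 ≤ β := div_nonneg (Finset.sum_nonneg fun _ _ => norm_nonneg _) hq0.le
  have hβK : β ≤ 4 / 3 * a * K := by
    have e : β = q * bB 4 l := by
      rw [hβ, hbB, ← hq2]
      field_simp
    rw [e]
    calc q * bB 4 l ≤ q * (4 / 3 * a * s.re) := mul_le_mul_of_nonneg_left hSB1 hq0.le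
      _ ≤ q * (4 / 3 * a * ‖s‖) := by
          refine mul_le_mul_of_nonneg_left (mul_le_mul_of_nonneg_left (Complex.re_le_norm s) ?_)
            hq0.le
          positivity
      _ = 4 / 3 * a * (q * ‖s‖) := by ring
      _ ≤ 4 / 3 * a * K := mul_le_mul_of_nonneg_left hs (by positivity)
  have hβ1 : β ≤ 1 := by
    rw [le_div_iff₀ (by positivity)] at ha1
    linarith
  have hβ2 : β * C1 ≤ c / 16 := by
    rw [le_div_iff₀ (by positivity)] at ha2
    have := mul_le_mul_of_nonneg_right hβK hC1p.le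
    linarith
  -- the end point bound
  have hTR : ∀ τ : ℝ, 0 ≤ τ → τ ≤ ρ → ∃ E : ℂ, ‖E‖ ≤ 8 * m * τ ^ 3 ∧
      ∏ k ∈ A, (1 - (τ : ℂ) * lt k) =
        Complex.exp (-((τ : ℂ) * (m * (ω * s))) - (τ : ℂ) ^ 2 * (m * V) / 2) *
          Complex.exp E := by
    intro τ hτ0 hτρ
    obtain ⟨E, hE, hp⟩ := h2 m lt A 4 (τ : ℂ) (by norm_num) hltL hltS (by
      rw [Complex.norm_real, Real.norm_of_nonneg hτ0]
      rw [hρdef] at hτρ
      linarith)
    rw [Complex.norm_real, Real.norm_of_nonneg hτ0] at hE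
    refine ⟨E, hE.trans (le_of_eq (by ring)), ?_⟩
    rw [hp, ← Complex.exp_add, hltA, hltA2]
  have hup : q * ‖∫ τ in (0:ℝ)..ρ, ∏ k, (1 - (τ : ℂ) * lt k)‖ ≤ c / 16 := by
    have hep := hS.ep ω ρ hω1 hρ (by rw [hρdef]; norm_num)
    have hprod : ∏ k ∈ A, ‖1 - (ρ : ℂ) * (ω * l k)‖ ≤ Real.exp (-(m * ρ ^ 2 / 1280)) := by
      obtain ⟨E, hE, hp⟩ := hTR ρ hρ.le le_rfl
      rw [← norm_prod]
      have hp' : ∏ k ∈ A, (1 - (ρ : ℂ) * (ω * l k)) = _ := hp
      rw [hp', norm_mul, Complex.norm_exp, Complex.norm_exp, ← Real.exp_add]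
      refine Real.exp_le_exp.2 ?_
      have e1 : (-((ρ : ℂ) * (m * (ω * s))) - (ρ : ℂ) ^ 2 * (m * V) / 2).re =
          -(ρ * m * (ω * s).re) - ρ ^ 2 * m * V / 2 := by
        have f1 : (-((ρ : ℂ) * (m * (ω * s))) - (ρ : ℂ) ^ 2 * (m * V) / 2) =
            -(((ρ * m : ℝ) : ℂ) * (ω * s)) - ((ρ ^ 2 * m * V / 2 : ℝ) : ℂ) := by
          push_cast; ring
        rw [f1, Complex.sub_re, Complex.neg_re, Complex.re_ofReal_mul, Complex.ofReal_re]
      rw [e1]
      have e2 : E.re ≤ 8 * m * ρ ^ 3 := (Complex.re_le_norm E).trans hE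
      have e3 : 0 ≤ ρ * m * (ω * s).re := by positivity
      have e4 : 8 * m * ρ ^ 3 = (m * ρ ^ 2) * (8 * ρ) := by ring
      have e5 : (m * ρ ^ 2) * (8 * ρ) ≤ (m * ρ ^ 2) * (1 / 2560) := by
        refine mul_le_mul_of_nonneg_left ?_ (by positivity)
        rw [hρdef]; norm_num
      have e6 : (m * ρ ^ 2) * (1 / 640) ≤ ρ ^ 2 * m * V / 2 := by
        have := mul_le_mul_of_nonneg_left hY (show 0 ≤ m * ρ ^ 2 / 2 by positivity)
        linarith
      have e7 : 0 ≤ m * ρ ^ 2 := by positivity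
      linarith
    have hsum : 72 * ∑ k, (‖l k‖ - ‖1 - (a : ℂ) * l k‖) ≤ 72 * q * K := by
      have t1 : 2 * a * m * ‖s‖ ≤ q * K := by
        have : 2 * a * m * ‖s‖ = (2 * a) * (q * (q * ‖s‖)) := by rw [← hq2]; ring
        rw [this]
        calc (2 * a) * (q * (q * ‖s‖)) ≤ 1 * (q * K) := by
              refine mul_le_mul (by linarith) (mul_le_mul_of_nonneg_left hs hq0.le)
                (by positivity) (by norm_num)
          _ = q * K := one_mul _
      have := hSB2.trans t1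
      linarith
    have hep2 : ‖∫ τ in (0:ℝ)..ρ, ∏ k, (1 - (τ : ℂ) * lt k)‖ ≤
        3 / (m + 1) * Real.exp (72 * q * K) * Real.exp (-(m * ρ ^ 2 / 1280)) := by
      refine hep.trans ?_
      refine mul_le_mul (mul_le_mul_of_nonneg_left (Real.exp_le_exp.2 hsum) (by positivity))
        hprod (Finset.prod_nonneg fun _ _ => norm_nonneg _) (by positivity)
    have hexp : Real.exp (72 * q * K) * Real.exp (-(m * ρ ^ 2 / 1280)) ≤ 1 / q := by
      rw [← Real.exp_add]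
      have t1 : 72 * q * K + -(m * ρ ^ 2 / 1280) ≤ -q := by
        have := mul_le_mul_of_nonneg_left hqa hq0.le
        rw [← hq2]
        nlinarith
      refine (Real.exp_le_exp.2 t1).trans ?_
      rw [Real.exp_neg, ← one_div]
      exact one_div_le_one_div_of_le hq0 (by linarith [Real.add_one_le_exp q])
    have hm1 : q * (3 / ((m : ℝ) + 1)) ≤ 3 := by
      have hq1 : q ≤ m + 1 := by nlinarith [sq_nonneg (q - 1)]
      rw [mul_div_assoc', div_le_iff₀ (by positivity)]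
      linarith
    calc q * ‖∫ τ in (0:ℝ)..ρ, ∏ k, (1 - (τ : ℂ) * lt k)‖
        ≤ q * (3 / (m + 1) * Real.exp (72 * q * K) * Real.exp (-(m * ρ ^ 2 / 1280))) :=
          mul_le_mul_of_nonneg_left hep2 hq0.le
      _ = (q * (3 / (m + 1))) * (Real.exp (72 * q * K) * Real.exp (-(m * ρ ^ 2 / 1280))) := by
          ring
      _ ≤ 3 * (1 / q) := mul_le_mul hm1 hexp (by positivity) (by norm_num)
      _ ≤ c / 16 := by
          rw [mul_one_div, div_le_div_iff₀ hq0 (by norm_num)]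
          linarith
  -- the model and the product
  set g : ℝ → ℂ := fun x => Complex.exp (-((x : ℂ) * σ) - (x : ℂ) ^ 2 * V / 2) with hg
  set f : ℝ → ℂ := fun x => ∏ k, (1 - ((x / q : ℝ) : ℂ) * lt k) with hf
  have hgc : Continuous g := by
    rw [hg]
    fun_prop
  have hfc : Continuous f := by
    rw [hf]
    fun_prop
  have hgle : ∀ x : ℝ, 0 ≤ x → ‖g x‖ ≤ Real.exp (-(x ^ 2 * V / 2)) := by
    intro x hx
    exact model_le σ V x hσ0 hx
  have hgle2 : ∀ x : ℝ, 0 ≤ x → ‖g x‖ ≤ Real.exp (-(1 / 640) * x ^ 2) := by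
    intro x hx
    refine (hgle x hx).trans (Real.exp_le_exp.2 ?_)
    nlinarith [mul_le_mul_of_nonneg_left hY (sq_nonneg x)]
  have i10 : Integrable fun x : ℝ => Real.exp (-(1 / 640) * x ^ 2) :=
    integrable_exp_neg_mul_sq (by norm_num)
  have hgi : IntegrableOn g (Ioi 0) := by
    refine Integrable.mono' i10.integrableOn hgc.aestronglyMeasurable ?_
    filter_upwards [ae_restrict_mem measurableSet_Ioi] with x hx
    exact hgle2 x (le_of_lt hx)
  set R : ℝ := q * ρ with hRdef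
  have hR0 : 0 < R := mul_pos hq0 hρ
  have hgiR : IntegrableOn g (Ioi R) := hgi.mono_set (Ioi_subset_Ioi hR0.le)
  have hsplit : ∫ x in Ioi (0:ℝ), g x = (∫ x in (0:ℝ)..R, g x) + ∫ x in Ioi R, g x := by
    rw [intervalIntegral.integral_interval_add_Ioi hgi hgiR]
  have hmain : c / 2 ≤ ‖∫ x in Ioi (0:ℝ), g x‖ :=
    model_lower K c hK0 hG σ V hσ0 hσK hY hV4
  have htail : ‖∫ x in Ioi R, g x‖ ≤ c / 16 := by
    have t1 : ‖∫ x in Ioi R, g x‖ ≤ ∫ x in Ioi R, Real.exp (-(1 / 640) * x ^ 2) := by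
      refine norm_integral_le_of_norm_le i10.integrableOn ?_
      filter_upwards [ae_restrict_mem measurableSet_Ioi] with x hx
      exact hgle2 x (hR0.le.trans (le_of_lt hx))
    have t2 := tail R hR0.le
    have t3 : Real.exp (-(R ^ 2 / 1280)) ≤ 1 / q := by
      have u1 : -(R ^ 2 / 1280) ≤ -q := by
        rw [hRdef]
        have := mul_le_mul_of_nonneg_left hqa hq0.le
        nlinarith
      refine (Real.exp_le_exp.2 u1).trans ?_
      rw [Real.exp_neg, ← one_div]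
      exact one_div_le_one_div_of_le hq0 (by linarith [Real.add_one_le_exp q])
    calc ‖∫ x in Ioi R, g x‖ ≤ C2 * Real.exp (-(R ^ 2 / 1280)) := t1.trans t2
      _ ≤ C2 * (1 / q) := mul_le_mul_of_nonneg_left t3 hC2p.le
      _ ≤ c / 16 := by
          rw [mul_one_div, div_le_div_iff₀ hq0 (by norm_num)]
          linarith
  -- pointwise difference
  have hdiff : ∀ x : ℝ, 0 ≤ x → x ≤ R →
      ‖f x - g x‖ ≤
        (β + 1 / q) * (49 * Real.exp (5120 / 3) * Real.exp (-(3 / 5120) * x ^ 2)) := by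
    intro x hx hxR
    set τ : ℝ := x / q with hτ
    have hτ0 : 0 ≤ τ := div_nonneg hx hq0.le
    have hτρ : τ ≤ ρ := by
      rw [hτ, div_le_iff₀ hq0, mul_comm]
      exact hxR
    have hx1 : x = τ * q := by rw [hτ]; field_simp
    have hxc : (x : ℂ) = (τ : ℂ) * q := by exact_mod_cast hx1
    obtain ⟨E, hE, hp⟩ := hTR τ hτ0 hτρ
    have hp2 : ∏ k ∈ A, (1 - (τ : ℂ) * lt k) = g x * Complex.exp E := by
      rw [hp]
      congr 1
      rw [hg]
      simp only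
      congr 1
      rw [hσ, hmc, hxc]
      ring
    have hfx : f x = (∏ k ∈ B, (1 - (τ : ℂ) * lt k)) * (g x * Complex.exp E) := by
      rw [← hp2]
      rw [hf]
      simp only
      rw [← Finset.prod_filter_mul_prod_filter_not Finset.univ (fun k => 4 < ‖l k‖)]
    rw [hfx]
    refine pw _ E (g x) x q β V hx hq0 hβ0 hβ1 hY ?_ ?_ ?_ (hgle x hx)
    · have t1 := Finset.norm_prod_one_add_sub_one_le B (fun k => -((τ : ℂ) * lt k))
      have t2 : ∑ k ∈ B, ‖-((τ : ℂ) * lt k)‖ = x * β := by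
        rw [hβ, mul_div_assoc', mul_comm x, mul_div_assoc, ← hτ, Finset.sum_mul]
        refine Finset.sum_congr rfl fun k _ => ?_
        rw [norm_neg, norm_mul, Complex.norm_real, Real.norm_of_nonneg hτ0, hltn, mul_comm]
      rw [t2] at t1
      simpa only [sub_eq_add_neg] using t1
    · refine hE.trans (le_of_eq ?_)
      rw [hx1, ← hq2]
      field_simp
    · refine hE.trans ?_
      have t1 : 8 * m * τ ^ 3 = x ^ 2 * (8 * τ) := by
        rw [hx1, ← hq2]; ring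
      rw [t1, mul_div_assoc]
      refine mul_le_mul_of_nonneg_left ?_ (sq_nonneg x)
      rw [hρdef] at hτρ
      linarith
  have hdi : ‖∫ x in (0:ℝ)..R, (f x - g x)‖ ≤ (β + 1 / q) * C1 := by
    have i3 : Integrable fun x : ℝ => Real.exp (-(3 / 5120) * x ^ 2) :=
      integrable_exp_neg_mul_sq (by norm_num)
    refine le_trans (intervalIntegral.norm_integral_le_of_norm_le hR0.le ?_
      (Continuous.intervalIntegrable (by fun_prop) _ _)
      (g := fun x => (β + 1 / q) * (49 * Real.exp (5120 / 3) * Real.exp (-(3 / 5120) * x ^ 2)))) ?_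
    · filter_upwards with x hx
      exact hdiff x hx.1.le hx.2
    · rw [intervalIntegral.integral_const_mul, intervalIntegral.integral_const_mul]
      refine mul_le_mul_of_nonneg_left ?_ (by positivity)
      rw [hC1]
      refine mul_le_mul_of_nonneg_left ?_ (by positivity)
      rw [intervalIntegral.integral_of_le hR0.le]
      exact setIntegral_mono_set i3.integrableOn
        (Filter.Eventually.of_forall fun x => (Real.exp_pos _).le) Ioc_subset_Ioi_self.eventuallyLE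
  have hdi2 : (β + 1 / q) * C1 ≤ c / 8 := by
    have : 1 / q * C1 ≤ c / 16 := by
      rw [one_div_mul_eq_div, div_le_div_iff₀ hq0 (by norm_num)]
      linarith
    rw [add_mul]
    linarith
  have hsub : ∫ x in (0:ℝ)..R, (f x - g x) = (∫ x in (0:ℝ)..R, f x) - ∫ x in (0:ℝ)..R, g x :=
    intervalIntegral.integral_sub (hfc.intervalIntegrable _ _) (hgc.intervalIntegrable _ _)
  have hscale : ∫ x in (0:ℝ)..R, f x = q • ∫ τ in (0:ℝ)..ρ, ∏ k, (1 - (τ : ℂ) * lt k) := by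
    have := intervalIntegral.integral_comp_div (a := 0) (b := R)
      (fun τ : ℝ => ∏ k, (1 - (τ : ℂ) * lt k)) hq0.ne'
    rw [zero_div, hRdef, mul_div_cancel_left₀ _ hq0.ne'] at this
    exact this
  have hfin : q * ‖∫ τ in (0:ℝ)..ρ, ∏ k, (1 - (τ : ℂ) * lt k)‖ = ‖∫ x in (0:ℝ)..R, f x‖ := by
    rw [hscale, norm_smul, Real.norm_of_nonneg hq0.le]
  rw [hfin] at hup
  rw [hsplit] at hmain
  have n1 := norm_add_le (∫ x in (0:ℝ)..R, g x) (∫ x in Ioi R, g x)
  have n2 : ‖∫ x in (0:ℝ)..R, g x‖ ≤ ‖∫ x in (0:ℝ)..R, f x‖ + ‖∫ x in (0:ℝ)..R, (f x - g x)‖ := by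
    rw [hsub]
    have := norm_sub_le (∫ x in (0:ℝ)..R, f x) ((∫ x in (0:ℝ)..R, f x) - ∫ x in (0:ℝ)..R, g x)
    rwa [sub_sub_cancel] at this
  linarith

end Pool.Agent.H661.BV
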